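import Pool.Agent.Helper60_SEP.Stmts2
import Pool.Agent.Helper60_RS.Stw

/-!
# MP_ff6f12_co, squad SEP: module BSM (helper60)
-/

set_option autoImplicit false

open SimpleGraph

namespace Pool.Agent.SEP60.H60

open Pool.Agent.RS80 Pool.Agent.RS81 Pool.Agent.RS80.H60

variable {V K U W : Type}

/-- completing sets -/
theorem cone_emb {R : SimpleGraph K} {T : Set K} {P : SimpleGraph (Option U)} (i : K → U)
    (hi : Function.Injective i) (h1 : ∀ a b, R.Adj a b → P.Adj (some (i a)) (some (i b)))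
    (h2 : ∀ t ∈ T, P.Adj none (some (i t))) : cone R T ⊑ P := by
  refine ⟨⟨⟨Option.map i, ?_⟩, Option.map_injective hi⟩⟩
  rintro (_ | a) (_ | b) h
  · exact h.elim
  · exact h2 b h
  · exact (h2 a h).symm
  · exact h1 a b h

/-- agreement propagates -/
theorem agree {Γ : SimpleGraph U} {χ : U → U → Bool} {R : SimpleGraph (U ⊕ W)}
    (hχ : ∀ x y, χ x y = χ y x)
    (h3 : ∀ x y z, Γ.Adj x y → Γ.Adj x z →
      ((R.Adj (.inl x) (.inl y) ↔ R.Adj (.inl x) (.inl z)) ↔ χ x y = χ x z))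
    {a : Prop} {x : U}
    (hx : ∀ y, Γ.Adj x y → ((R.Adj (.inl x) (.inl y) ↔ χ x y = true) ↔ a))
    {x' : U} (h : Γ.Reachable x x') :
    ∀ y, Γ.Adj x' y → ((R.Adj (.inl x') (.inl y) ↔ χ x' y = true) ↔ a) := by
  obtain ⟨p⟩ := h
  induction p with
  | nil => exact hx
  | @cons u v w huv p ih =>
    apply ih
    intro y hy
    have h4 := hx v huv
    have h5 := h3 v y u hy huv.symm
    have h6 : R.Adj (.inl v) (.inl u) ↔ R.Adj (.inl u) (.inl v) := ⟨fun h => h.symm, fun h => h.symm⟩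
    have h7 := hχ u v
    cases h8 : χ v y <;> cases h9 : χ u v <;> rw [h8, ← h7, h9, h6] at h5 <;> rw [h9] at h4 <;>
      tauto

/-- BSM. -/
theorem bsm (env : EnvStmt) (qst : QstStmt) (upp : UppStmt) : BsmStmt := by
  intro V _ B hB hc hN
  classical
  have : Nonempty V := hB.2.1.nonempty
  obtain ⟨u, hu⟩ := Finite.exists_min fun v => (B.neighborSet v).ncard
  obtain ⟨δ, hδ⟩ : ∃ δ, (B.neighborSet u).ncard = δ := ⟨_, rfl⟩
  have hd : ∀ v, δ ≤ (B.neighborSet v).ncard := by
    intro v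
    rw [← hδ]
    exact hu v
  have hδ1 : 1 ≤ δ := by
    obtain ⟨a, b, hab, ha, hb⟩ := two_nbrs hB u
    rw [← hδ, Nat.succ_le_iff, Set.ncard_pos (Set.toFinite _)]
    exact ⟨a, ha⟩
  obtain ⟨K, _, R, κ, S, hRc, hRf, hκ, hS1, hS2, hT⟩ := qst V B δ hB hc hd ⟨u, hδ⟩
  have hBa : ∀ x, ∃ y, B.Adj x y := fun x => by
    obtain ⟨a, b, hab, ha, hb⟩ := two_nbrs hB x
    exact ⟨a, ha⟩
  -- the second copy
  let j : K → K ⊕ K := fun k => if k ∈ S then Sum.inl k else Sum.inr k
  have hj1 : ∀ k ∈ S, j k = Sum.inl k := fun k hk => if_pos hk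
  have hj2 : ∀ k, k ∉ S → j k = Sum.inr k := fun k hk => if_neg hk
  have hji : Function.Injective j := by
    intro a b hab
    by_cases ha : a ∈ S <;> by_cases hb : b ∈ S
    · rw [hj1 a ha, hj1 b hb] at hab
      exact Sum.inl.inj hab
    · rw [hj1 a ha, hj2 b hb] at hab
      cases hab
    · rw [hj2 a ha, hj1 b hb] at hab
      cases hab
    · rw [hj2 a ha, hj2 b hb] at hab
      exact Sum.inr.inj hab
  let ei : K ↪ K ⊕ K := ⟨Sum.inl, Sum.inl_injective⟩
  let ej : K ↪ K ⊕ K := ⟨j, hji⟩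
  let χ : K ⊕ K → K ⊕ K → Bool := fun x y => x.isLeft && y.isLeft
  have hχs : ∀ x y, χ x y = χ y x := fun x y => Bool.and_comm _ _
  let κ' : K ⊕ K → Bool := Sum.elim κ κ
  have hκj : ∀ k, κ' (j k) = κ k := by
    intro k
    by_cases hk : k ∈ S
    · rw [hj1 k hk]; rfl
    · rw [hj2 k hk]; rfl
  have hG1 : ∀ x y, (R.map ei).Adj x y → χ x y = true := by
    intro x y h
    rw [map_adj] at h
    obtain ⟨a, b, _, rfl, rfl⟩ := h
    rfl
  have hG2 : ∀ x y, (R.map ej).Adj x y → χ x y = false := by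
    intro x y h
    rw [map_adj] at h
    obtain ⟨a, b, hab, rfl, rfl⟩ := h
    by_cases ha : a ∈ S
    · have hb : b ∉ S := fun hb => hκ a b hab ((hS1 a ha).trans (hS1 b hb).symm)
      have h1 : (j b).isLeft = false := by rw [hj2 b hb]; rfl
      have h2 : χ (j a) (j b) = ((j a).isLeft && (j b).isLeft) := rfl
      have h3 : χ (ej a) (ej b) = χ (j a) (j b) := rfl
      rw [h3, h2, h1, Bool.and_false]
    · have h1 : (j a).isLeft = false := by rw [hj2 a ha]; rfl
      have h2 : χ (j a) (j b) = ((j a).isLeft && (j b).isLeft) := rfl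
      have h3 : χ (ej a) (ej b) = χ (j a) (j b) := rfl
      rw [h3, h2, h1, Bool.false_and]
  have hG : ∀ x y, (R.map ei ⊔ R.map ej).Adj x y →
      ((R.map ei).Adj x y ↔ χ x y = true) ∧ ((R.map ej).Adj x y ↔ χ x y = false) := by
    intro x y h
    rw [sup_adj] at h
    rcases h with h | h
    · refine ⟨⟨fun _ => hG1 x y h, fun _ => h⟩, ⟨fun h2 => hG2 x y h2, fun h2 => ?_⟩⟩
      rw [hG1 x y h] at h2
      cases h2
    · refine ⟨⟨fun h2 => hG1 x y h2, fun h2 => ?_⟩, ⟨fun _ => hG2 x y h, fun _ => h⟩⟩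
      rw [hG2 x y h] at h2
      cases h2
  obtain ⟨W, _, F, hF1, hF2, hF3, hF4⟩ := env V B hB hc hN (K ⊕ K) (R.map ei ⊔ R.map ej)
    (R.map ei ⊔ R.map ej) κ' χ (by
      intro x y h
      rw [sup_adj, map_adj, map_adj] at h
      rcases h with ⟨a, b, hab, rfl, rfl⟩ | ⟨a, b, hab, rfl, rfl⟩
      · exact hκ a b hab
      · have h1 : κ' (ej a) = κ a := hκj a
        have h2 : κ' (ej b) = κ b := hκj b
        rw [h1, h2]
        exact hκ a b hab) le_rfl hχs
  -- `F` is in the class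
  have hFC : InC B F := by
    obtain ⟨R', S', h1, h2, h3, h4, h5⟩ := hF4 (R.map ei) (R.map ej) rfl hG
    refine ⟨R', S', h1, ?_, ?_⟩
    · rintro ⟨f⟩
      choose g hg using h4 f
      refine hRf (copy_of_map hBa ei ⟨⟨⟨g, ?_⟩, ?_⟩⟩)
      · intro x y hxy
        have h6 := f.toHom.map_adj hxy
        rw [Copy.coe_toHom, hg x, hg y, h2] at h6
        exact h6
      · intro x y hxy
        apply f.injective
        have h6 : g x = g y := hxy
        rw [Copy.coe_toHom, hg x, hg y, h6]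
    · rintro ⟨f⟩
      choose g hg using h5 f
      refine hRf (copy_of_map hBa ej ⟨⟨⟨g, ?_⟩, ?_⟩⟩)
      · intro x y hxy
        have h6 := f.toHom.map_adj hxy
        rw [Copy.coe_toHom, hg x, hg y, h3] at h6
        exact h6
      · intro x y hxy
        apply f.injective
        have h6 : g x = g y := hxy
        rw [Copy.coe_toHom, hg x, hg y, h6]
  let ι : K → (K ⊕ K) ⊕ W := fun s => Sum.inl (Sum.inl s)
  have hιi : Function.Injective ι := fun a b h => Sum.inl_injective (Sum.inl_injective h)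
  refine upp V B δ hδ1 hd ⟨u, hδ⟩ ((K ⊕ K) ⊕ W) F (ι '' S) ?_ hFC ?_
  · rw [Set.ncard_image_of_injective _ hιi, hS2]
  rintro ⟨P, N, hPN, hP, hNf⟩
  have hPN' : ∀ a b, (P.Adj a b ∨ N.Adj a b) ↔ (cone F (ι '' S)).Adj a b := by
    intro a b
    rw [← hPN, sup_adj]
  have hsi : Function.Injective (some : (K ⊕ K) ⊕ W → Option ((K ⊕ K) ⊕ W)) :=
    Option.some_injective _
  have hgood : Good B F (P.comap some) (N.comap some) := by
    refine ⟨?_, ?_, ?_⟩
    · ext a b
      rw [sup_adj, comap_adj, comap_adj, hPN']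
      exact Iff.rfl
    · exact fun h => hP (h.trans ⟨⟨⟨some, fun h => h⟩, hsi⟩⟩)
    · exact fun h => hNf (h.trans ⟨⟨⟨some, fun h => h⟩, hsi⟩⟩)
  -- a vertex of `S`
  obtain ⟨s₀, hs₀⟩ : S.Nonempty := by
    rw [← Set.ncard_pos (Set.toFinite _), hS2]
    omega
  obtain ⟨k₀, hk₀⟩ : ∃ k, R.Adj s₀ k := by
    obtain ⟨T, hTS, hTc⟩ := Set.exists_subset_card_eq (s := S) (n := δ) (by rw [hS2]; omega)
    by_contra hcon
    push Not at hcon
    have h1 : ∀ k, k = s₀ := by
      intro k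
      by_contra hk
      obtain ⟨p⟩ := hRc.preconnected s₀ k
      cases p with
      | nil => exact hk rfl
      | cons h _ => exact hcon _ h
    obtain ⟨f⟩ := hT T hTS hTc
    have h2 : Nat.card V ≤ Nat.card (Option K) := Nat.card_le_card_of_injective f f.injective
    have h3 : Nat.card (Option K) ≤ 2 := by
      have := Fintype.ofFinite K
      rw [Nat.card_eq_fintype_card, Fintype.card_option]
      have h4 : Fintype.card K ≤ 1 := Fintype.card_le_one_iff.2 fun a b => (h1 a).trans (h1 b).symm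
      omega
    have := hB.1
    omega
  have hadj1 : ∀ a b, R.Adj a b → (R.map ei ⊔ R.map ej).Adj (Sum.inl a) (Sum.inl b) := by
    intro a b h
    rw [sup_adj, map_adj]
    exact Or.inl ⟨a, b, h, rfl, rfl⟩
  have hadj2 : ∀ a b, R.Adj a b → (R.map ei ⊔ R.map ej).Adj (j a) (j b) := by
    intro a b h
    rw [sup_adj, map_adj, map_adj]
    exact Or.inr ⟨a, b, h, rfl, rfl⟩
  have hreach1 : ∀ k, (R.map ei ⊔ R.map ej).Reachable (Sum.inl s₀) (Sum.inl k) := by
    intro k
    have h1 := hRc.preconnected s₀ k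
    exact h1.map ⟨Sum.inl, fun {a b} h => hadj1 a b h⟩
  have hreach2 : ∀ k, (R.map ei ⊔ R.map ej).Reachable (Sum.inl s₀) (j k) := by
    intro k
    have h1 := hRc.preconnected s₀ k
    have h2 := h1.map (⟨j, fun {a b} h => hadj2 a b h⟩ : R →g (R.map ei ⊔ R.map ej))
    have h3 : (⟨j, fun {a b} h => hadj2 a b h⟩ : R →g (R.map ei ⊔ R.map ej)) s₀ =
      Sum.inl s₀ := hj1 s₀ hs₀
    rw [h3] at h2
    exact h2
  have hforce := hF3 _ _ hgood
  have hbase : ∀ y, (R.map ei ⊔ R.map ej).Adj (Sum.inl s₀) y →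
      (((P.comap some).Adj (.inl (Sum.inl s₀)) (.inl y) ↔ χ (Sum.inl s₀) y = true) ↔
        (P.comap some).Adj (.inl (Sum.inl s₀)) (.inl (Sum.inl k₀))) := by
    intro y hy
    have h1 := hforce (Sum.inl s₀) y (Sum.inl k₀) hy (hadj1 _ _ hk₀)
    have h2 : χ (Sum.inl s₀) (Sum.inl k₀) = true := rfl
    rw [h2] at h1
    tauto
  have hall1 : ∀ a b, R.Adj a b → (((P.comap some).Adj (.inl (Sum.inl a)) (.inl (Sum.inl b))) ↔
      (P.comap some).Adj (.inl (Sum.inl s₀)) (.inl (Sum.inl k₀))) := by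
    intro a b h
    have h1 := agree hχs hforce hbase (hreach1 a) (Sum.inl b) (hadj1 a b h)
    have h2 : χ (Sum.inl a) (Sum.inl b) = true := rfl
    rw [h2] at h1
    tauto
  have hall2 : ∀ a b, R.Adj a b → (((P.comap some).Adj (.inl (j a)) (.inl (j b))) ↔
      ¬ (P.comap some).Adj (.inl (Sum.inl s₀)) (.inl (Sum.inl k₀))) := by
    intro a b h
    have h1 := agree hχs hforce hbase (hreach2 a) (j b) (hadj2 a b h)
    have h2 : χ (j a) (j b) = false := hG2 _ _ (by
      rw [map_adj]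
      exact ⟨a, b, h, rfl, rfl⟩)
    rw [h2] at h1
    have h3 : ¬ (false = true) := by decide
    tauto
  have hN1 : ∀ a b, R.Adj a b → ¬ P.Adj (some (.inl (Sum.inl a))) (some (.inl (Sum.inl b))) →
      N.Adj (some (.inl (Sum.inl a))) (some (.inl (Sum.inl b))) := by
    intro a b h h1
    have h2 := (hPN' (some (.inl (Sum.inl a))) (some (.inl (Sum.inl b)))).2
      ((hF1 _ _).2 (hadj1 a b h))
    tauto
  have hN2 : ∀ a b, R.Adj a b → ¬ P.Adj (some (.inl (j a))) (some (.inl (j b))) →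
      N.Adj (some (.inl (j a))) (some (.inl (j b))) := by
    intro a b h h1
    have h2 := (hPN' (some (.inl (j a))) (some (.inl (j b)))).2
      ((hF1 _ _).2 (hadj2 a b h))
    tauto
  -- the edges at the new vertex
  have hcard : δ ≤ {s ∈ S | P.Adj none (some (ι s))}.ncard ∨
      δ ≤ {s ∈ S | N.Adj none (some (ι s))}.ncard := by
    by_contra hcon
    push Not at hcon
    have h1 : S ⊆ {s ∈ S | P.Adj none (some (ι s))} ∪ {s ∈ S | N.Adj none (some (ι s))} := by
      intro s hs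
      have h2 : P.Adj none (some (ι s)) ∨ N.Adj none (some (ι s)) := by
        rw [hPN']
        exact ⟨s, hs, rfl⟩
      rcases h2 with h2 | h2
      · exact Or.inl ⟨hs, h2⟩
      · exact Or.inr ⟨hs, h2⟩
    have h2 := (Set.ncard_le_ncard h1 (Set.toFinite _)).trans (Set.ncard_union_le _ _)
    rw [hS2] at h2
    omega
  have hιj : Function.Injective fun k => (Sum.inl (j k) : (K ⊕ K) ⊕ W) :=
    fun a b h => hji (Sum.inl_injective h)
  by_cases h0 : (P.comap some).Adj (.inl (Sum.inl s₀)) (.inl (Sum.inl k₀))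
  · rcases hcard with h | h
    · obtain ⟨T, hTS, hTc⟩ := Set.exists_subset_card_eq h
      refine hP ((hT T (fun t ht => (hTS ht).1) hTc).trans (cone_emb ι hιi ?_ ?_))
      · exact fun a b hab => (hall1 a b hab).2 h0
      · exact fun t ht => (hTS ht).2
    · obtain ⟨T, hTS, hTc⟩ := Set.exists_subset_card_eq h
      refine hNf ((hT T (fun t ht => (hTS ht).1) hTc).trans (cone_emb _ hιj ?_ ?_))
      · intro a b hab
        refine hN2 a b hab fun h5 => ?_
        exact (hall2 a b hab).1 h5 h0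
      · intro t ht
        rw [hj1 t (hTS ht).1]
        exact (hTS ht).2
  · rcases hcard with h | h
    · obtain ⟨T, hTS, hTc⟩ := Set.exists_subset_card_eq h
      refine hP ((hT T (fun t ht => (hTS ht).1) hTc).trans (cone_emb _ hιj ?_ ?_))
      · exact fun a b hab => (hall2 a b hab).2 h0
      · intro t ht
        rw [hj1 t (hTS ht).1]
        exact (hTS ht).2
    · obtain ⟨T, hTS, hTc⟩ := Set.exists_subset_card_eq h
      refine hNf ((hT T (fun t ht => (hTS ht).1) hTc).trans (cone_emb ι hιi ?_ ?_))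
      · intro a b hab
        refine hN1 a b hab fun h5 => ?_
        exact h0 ((hall1 a b hab).1 h5)
      · exact fun t ht => (hTS ht).2

end Pool.Agent.SEP60.H60
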