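import Pool.Agent.Helper60_SEP.Bas

/-!
# MP_ff6f12_co, squad SEP: module ENV (helper60)
-/

set_option autoImplicit false

open SimpleGraph

namespace Pool.Agent.SEP60.H60

open Pool.Agent.RS80 Pool.Agent.RS81 Pool.Agent.SEP60

variable {V T : Type} {B : SimpleGraph V}

theorem free_mono {K : Type} {G G' : SimpleGraph K} (h : G ≤ G') (hf : B.Free G') :
    B.Free G := by
  rintro ⟨f⟩
  exact hf ⟨⟨⟨f, fun hab => h (f.toHom.map_adj hab)⟩, f.injective⟩⟩

/-- the second class can be made disjoint from the first -/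
theorem good_sdiff {K : Type} {G R S : SimpleGraph K} (h : Good B G R S) :
    Good B G R (S \ R) := by
  refine ⟨?_, h.2.1, free_mono sdiff_le h.2.2⟩
  rw [sup_sdiff_self_right]
  exact h.1

theorem good_swap {K : Type} {G R S : SimpleGraph K} (h : Good B G R S) : Good B G S R :=
  ⟨by rw [sup_comm]; exact h.1, h.2.2, h.2.1⟩

theorem pat_compl {Q : SimpleGraph T} {r : T} {n : ℕ} {nb : Fin n → T}
    (hnb : ∀ i, Q.Adj r (nb i)) (p : Fin n → Bool) (hp : p ∈ pat B Q r nb) :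
    (fun i => !p i) ∈ pat B Q r nb := by
  obtain ⟨R, S, hg, h⟩ := hp
  refine ⟨S \ R, R, good_swap (good_sdiff hg), fun i => ?_⟩
  have h1 : (R ⊔ S).Adj r (nb i) := by rw [hg.1]; exact hnb i
  rw [sdiff_adj]
  have h2 := h i
  rw [sup_adj] at h1
  show (!p i) = true ↔ S.Adj r (nb i) ∧ ¬ R.Adj r (nb i)
  by_cases hpi : p i = true
  · rw [hpi]
    constructor
    · intro h4; exact absurd h4 (by simp)
    · intro h4; exact absurd (h2.1 hpi) h4.2
  · have h3 : ¬ R.Adj r (nb i) := fun h4 => hpi (h2.2 h4)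
    have h5 : p i = false := by simpa using hpi
    rw [h5]
    exact ⟨fun _ => ⟨h1.resolve_left h3, h3⟩, fun _ => rfl⟩

theorem pat_const {Q : SimpleGraph T} {r : T} {n : ℕ} {nb : Fin n → T}
    (hnb : ∀ z, Q.Adj r z ↔ ∃ i, nb i = z)
    (hmix : ∀ R S, Good B Q R S → (∃ x, R.Adj r x) ∧ (∃ y, S.Adj r y)) (c : Bool) :
    (fun _ => c) ∉ pat B Q r nb := by
  rintro ⟨R, S, hg, h⟩
  cases c
  · obtain ⟨⟨x, hx⟩, _⟩ := hmix R S hg
    have h1 : Q.Adj r x := by rw [← hg.1]; exact Or.inl hx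
    obtain ⟨i, rfl⟩ := (hnb x).1 h1
    exact absurd ((h i).2 hx) (by simp)
  · obtain ⟨_, ⟨y, hy⟩⟩ := hmix R (S \ R) (good_sdiff hg)
    have h1 : Q.Adj r y := by rw [← hg.1]; exact Or.inr hy.1
    obtain ⟨i, rfl⟩ := (hnb y).1 h1
    exact hy.2 ((h i).1 rfl)

/-- ENV. -/
theorem env (snd : SndStmt) (mxb : MxbStmt) (bas : BasStmt) (frc : FrcStmt) (ext : ExtStmt) :
    EnvStmt := by
  intro V _ B hB hc ho U _ G Γ κ χ hκ hΓ hχ
  obtain ⟨T, _, Q, κQ, r, hQ, hC, hmix⟩ := mxb V B hB hc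
  -- the neighbours of the root
  obtain ⟨n, ⟨en⟩⟩ : ∃ n, Nonempty (Fin n ≃ Q.neighborSet r) :=
    ⟨Nat.card (Q.neighborSet r), ⟨(Finite.equivFin _).symm⟩⟩
  let nb : Fin n → T := fun i => (en i : T)
  have nbi : Function.Injective nb := fun i j h => en.injective (Subtype.ext h)
  have nbr : ∀ z, Q.Adj r z ↔ ∃ i, nb i = z := by
    intro z
    constructor
    · intro h
      exact ⟨en.symm ⟨z, h⟩, by show ((en (en.symm ⟨z, h⟩) : Q.neighborSet r) : T) = z; rw [en.apply_symm_apply]⟩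
    · rintro ⟨i, rfl⟩
      exact (en i).2
  have hconst := pat_const (nb := nb) nbr hmix
  have hcompl := pat_compl (B := B) (nb := nb) (fun i => (nbr _).2 ⟨i, rfl⟩)
  obtain ⟨R₁, S₁, hg₁⟩ := hC
  classical
  have hne : (pat B Q r nb).Nonempty :=
    ⟨fun i => decide (R₁.Adj r (nb i)), R₁, S₁, hg₁, fun i => by simp⟩
  have hn : 2 ≤ n := by
    by_contra hn
    obtain ⟨p, hp⟩ := hne
    have h1 : ∃ c : Bool, p = fun _ => c := by
      rcases Nat.lt_or_ge 0 n with h0 | h0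
      · refine ⟨p ⟨0, h0⟩, ?_⟩
        funext i
        congr 1
        apply Fin.ext
        show (i : ℕ) = 0
        omega
      · refine ⟨true, ?_⟩
        funext i
        exact absurd i.2 (by omega)
    obtain ⟨c, rfl⟩ := h1
    exact hconst c hp
  obtain ⟨Y, E, _, _, inc, s, t, h1, h2, h3, h4, h5, h6⟩ :=
    snd n (Nat.card V) (pat B Q r nb) hn hne hcompl hconst
  let D : Dat B :=
    { U := U, finU := inferInstance, G := G, Γ := Γ, κ := κ, χ := χ, hκ := hκ, hΓ := hΓ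
      hχ := hχ, T := T, finT := inferInstance, Q := Q, κQ := κQ, r := r, hQ := hQ, n := n
      nb := nb, nbi := nbi, nbr := nbr, Y := Y, finY := inferInstance, E := E
      finE := inferInstance, inc := inc, s := s, t := t, hts := h1, htt := h2, inci := h3
      leafy := h4, sol := h5, force := h6 }
  have hb : Bas D := bas V B D
  exact ⟨U ⊕ (U × U × Y) ⊕ (U × U × E × T), inferInstance, D.F, hb.ecc, hb.ncor,
    frc V B D hb, ext V B hB hc ho D hb⟩

end Pool.Agent.SEP60.H60
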