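import Pool.Agent.Helper60_SEP.Stmts2
import Pool.Agent.Helper60_RS.Stw

/-!
# MP_ff6f12_co, squad SEP: module UPP (helper60)
-/

set_option autoImplicit false

open SimpleGraph

namespace Pool.Agent.SEP60.H60

open Pool.Agent.RS80 Pool.Agent.RS81 Pool.Agent.RS80.H60

variable {V K : Type}

theorem deg_eq {G : SimpleGraph K} (x : K) [Fintype (G.neighborSet x)] :
    G.degree x = (G.neighborSet x).ncard := by
  rw [Set.ncard_eq_toFinset_card', ← card_neighborFinset_eq_degree]
  rfl

theorem starG_adj {u : K} {A : Set K} {a b : K} :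
    (starG u A).Adj a b ↔ a ≠ b ∧ ((a = u ∧ b ∈ A) ∨ (b = u ∧ a ∈ A)) := by
  unfold starG
  exact fromRel_adj _ _ _

/-- few edges at one vertex do no harm -/
theorem free_star {B : SimpleGraph V} {δ : ℕ} (hd : ∀ v, δ ≤ (B.neighborSet v).ncard)
    [Finite K] {R : SimpleGraph K} {u : K} (hu : ∀ y, ¬ R.Adj u y) (hR : B.Free R) {A : Set K}
    (hA : A.ncard < δ) : B.Free (R ⊔ starG u A) := by
  rintro ⟨f⟩
  by_cases h : ∃ x, f x = u
  · obtain ⟨x, hx⟩ := h
    have h1 : f '' B.neighborSet x ⊆ A := by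
      rintro _ ⟨y, hy, rfl⟩
      have h2 := f.toHom.map_adj hy
      rw [Copy.coe_toHom, hx, sup_adj, starG_adj] at h2
      rcases h2 with h2 | ⟨h3, ⟨_, h2⟩ | ⟨h2, _⟩⟩
      · exact absurd h2 (hu _)
      · exact h2
      · exact absurd h2.symm h3
    have h2 := Set.ncard_le_ncard h1 (Set.toFinite A)
    have h3 : (f '' B.neighborSet x).ncard = (B.neighborSet x).ncard :=
      Set.ncard_image_of_injective _ f.injective
    have := hd x
    omega
  · apply hR
    refine ⟨⟨⟨f, ?_⟩, f.injective⟩⟩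
    intro x y hxy
    have h2 := f.toHom.map_adj hxy
    rw [Copy.coe_toHom, sup_adj, starG_adj] at h2
    rcases h2 with h2 | ⟨h3, ⟨h2, _⟩ | ⟨h2, _⟩⟩
    · exact h2
    · exact absurd ⟨x, h2⟩ h
    · exact absurd ⟨y, h2⟩ h

/-- the lower bound -/
theorem low {B : SimpleGraph V} {δ : ℕ} (hδ : 1 ≤ δ) (hd : ∀ v, δ ≤ (B.neighborSet v).ncard)
    [Finite K] {G : SimpleGraph K} (hG : MinRamsey G B) (u : K) :
    2 * δ - 1 ≤ (G.neighborSet u).ncard := by
  by_contra hcon
  have hB : ∀ x, ∃ y, B.Adj x y := by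
    intro x
    have h1 : (B.neighborSet x).Nonempty := by
      by_contra h
      rw [Set.not_nonempty_iff_eq_empty] at h
      have := hd x
      rw [h, Set.ncard_empty] at this
      omega
    exact h1
  have h1 : (⊤ : G.Subgraph).deleteVerts {u} ≠ ⊤ := by
    intro h
    have h2 : u ∈ ((⊤ : G.Subgraph).deleteVerts {u}).verts := by
      rw [h]; exact Set.mem_univ u
    rw [Subgraph.deleteVerts_verts] at h2
    exact h2.2 rfl
  obtain ⟨R, S, hRS, hR, hS⟩ := not_arrows_iff.1 (hG.2 _ h1)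
  let e : ((⊤ : G.Subgraph).deleteVerts {u}).verts ↪ K := Function.Embedding.subtype _
  have heu : ∀ x, e x ≠ u := by
    intro x hx
    have h2 : (x : K) ∈ (⊤ : G.Subgraph).verts \ {u} := x.2
    exact h2.2 hx
  have hmu : ∀ T : SimpleGraph ((⊤ : G.Subgraph).deleteVerts {u}).verts,
      ∀ y, ¬ (T.map e).Adj u y := by
    intro T y h
    rw [map_adj] at h
    obtain ⟨a, b, _, ha, _⟩ := h
    exact heu a ha
  obtain ⟨A, hAs, hA⟩ := Set.exists_subset_card_eq
    (min_le_right (δ - 1) (G.neighborSet u).ncard)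
  have hA2 : (G.neighborSet u \ A).ncard < δ := by
    rw [Set.ncard_sdiff hAs (Set.toFinite A), hA]
    rcases le_total (δ - 1) (G.neighborSet u).ncard with h | h
    · rw [min_eq_left h]; omega
    · rw [min_eq_right h]; omega
  have hA1 : A.ncard < δ := by
    rw [hA]
    have := min_le_left (δ - 1) (G.neighborSet u).ncard
    omega
  refine (not_arrows_iff.2 ⟨R.map e ⊔ starG u A, S.map e ⊔ starG u (G.neighborSet u \ A),
    ?_, ?_, ?_⟩) hG.1
  · ext a b
    rw [sup_adj, sup_adj, sup_adj, map_adj, map_adj, starG_adj, starG_adj]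
    constructor
    · rintro ((⟨a', b', hab, rfl, rfl⟩ | ⟨h3, ⟨h4, h5⟩ | ⟨h4, h5⟩⟩) |
        (⟨a', b', hab, rfl, rfl⟩ | ⟨h3, ⟨h4, h5⟩ | ⟨h4, h5⟩⟩))
      · have h2 : (R ⊔ S).Adj a' b' := Or.inl hab
        rw [hRS, Subgraph.coe_adj] at h2
        exact Subgraph.adj_sub _ h2
      · rw [h4]; exact hAs h5
      · rw [h4]; exact (hAs h5).symm
      · have h2 : (R ⊔ S).Adj a' b' := Or.inr hab
        rw [hRS, Subgraph.coe_adj] at h2
        exact Subgraph.adj_sub _ h2
      · rw [h4]; exact h5.1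
      · rw [h4]; exact h5.1.symm
    · intro hab
      by_cases ha : a = u
      · subst ha
        by_cases hb : b ∈ A
        · exact Or.inl (Or.inr ⟨hab.ne, Or.inl ⟨rfl, hb⟩⟩)
        · exact Or.inr (Or.inr ⟨hab.ne, Or.inl ⟨rfl, hab, hb⟩⟩)
      by_cases hb : b = u
      · subst hb
        by_cases hb : a ∈ A
        · exact Or.inl (Or.inr ⟨hab.ne, Or.inr ⟨rfl, hb⟩⟩)
        · exact Or.inr (Or.inr ⟨hab.ne, Or.inr ⟨rfl, hab.symm, hb⟩⟩)
      have ha' : a ∈ ((⊤ : G.Subgraph).deleteVerts {u}).verts := by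
        rw [Subgraph.deleteVerts_verts]
        exact ⟨Set.mem_univ _, ha⟩
      have hb' : b ∈ ((⊤ : G.Subgraph).deleteVerts {u}).verts := by
        rw [Subgraph.deleteVerts_verts]
        exact ⟨Set.mem_univ _, hb⟩
      have h2 : (R ⊔ S).Adj ⟨a, ha'⟩ ⟨b, hb'⟩ := by
        rw [hRS, Subgraph.coe_adj, Subgraph.deleteVerts_adj]
        exact ⟨Set.mem_univ _, ha, Set.mem_univ _, hb, hab⟩
      rcases h2 with h2 | h2
      · exact Or.inl (Or.inl ⟨_, _, h2, rfl, rfl⟩)
      · exact Or.inr (Or.inl ⟨_, _, h2, rfl, rfl⟩)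
  · exact free_star hd (hmu R) (fun h => hR (copy_of_map hB e h)) hA1
  · exact free_star hd (hmu S) (fun h => hS (copy_of_map hB e h)) hA2

/-- UPP. -/
theorem upp : UppStmt := by
  intro V _ B δ hδ hd hu K _ G S hS hG hcone
  classical
  obtain ⟨u, hu⟩ := hu
  have hdelta : @SimpleGraph.minDegree V B (Fintype.ofFinite V) _ = δ := by
    let := Fintype.ofFinite V
    have : Nonempty V := ⟨u⟩
    apply le_antisymm
    · rw [← hu, ← deg_eq]
      exact minDegree_le_degree B u
    · apply le_minDegree_of_forall_le_degree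
      intro x
      rw [deg_eq]
      exact hd x
  -- the smallest graph
  have hex : ∃ k, ∃ (L : Type) (_ : Finite L) (G' : SimpleGraph L), Arrows G' B ∧
      G' ⊑ cone G S ∧ mu G' = k :=
    ⟨_, Option K, inferInstance, cone G S, by
      by_contra h
      exact hcone (not_arrows_iff.1 h), IsContained.refl _, rfl⟩
  obtain ⟨L, _, G', hG', hGc, hmu⟩ := Nat.find_spec hex
  have hmin := fun (k : ℕ) (hk : k < Nat.find hex) => Nat.find_min hex hk
  obtain ⟨n, ⟨e⟩⟩ : ∃ n, Nonempty (Fin n ≃ L) := ⟨Nat.card L, ⟨(Finite.equivFin L).symm⟩⟩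
  have he : G'.comap e ≃g G' := Iso.comap e G'
  have hc1 : G'.comap e ⊑ cone G S := IsContained.trans ⟨he.toEmbedding.toCopy⟩ hGc
  have hMR : MinRamsey (G'.comap e) B := by
    refine ⟨arrows_of_iso he.symm hG', ?_⟩
    intro G₂ hne hA
    have h1 := mu_lt G₂ hne
    rw [mu_comap, hmu] at h1
    exact hmin _ h1 ⟨G₂.verts, inferInstance, G₂.coe, hA,
      IsContained.trans G₂.coe_isContained hc1, rfl⟩
  have h01 : ∀ (n : ℕ) (G₁ : SimpleGraph (Fin n)), MinRamsey G₁ B →
      2 * δ - 1 ≤ G₁.minDegree := by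
    intro n G₁ h₁
    have : Nonempty (Fin n) := by
      by_contra hempty
      rw [not_nonempty_iff] at hempty
      rcases h₁.1 ⊥ bot_le with ⟨⟨f⟩⟩ | ⟨⟨f⟩⟩
      · exact hempty.false (f u)
      · exact hempty.false (f u)
    apply le_minDegree_of_forall_le_degree
    intro x
    rw [deg_eq]
    exact low hδ hd h₁ x
  have h1 : (G'.comap e).minDegree = 2 * δ - 1 := by
    apply le_antisymm _ (h01 n _ hMR)
    obtain ⟨f⟩ := hc1
    obtain ⟨x, hx⟩ : ∃ x, f x = none := by
      by_contra hcon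
      push Not at hcon
      have h2 : ∀ x, ∃ y, f x = some y := fun x => Option.ne_none_iff_exists'.1 (hcon x)
      choose g hg using h2
      refine not_arrows_iff.2 hG (arrows_mono ⟨⟨⟨g, ?_⟩, ?_⟩⟩ hMR.1)
      · intro a b hab
        have h3 := f.toHom.map_adj hab
        rw [Copy.coe_toHom, hg a, hg b] at h3
        exact h3
      · intro a b hab
        have h3 : g a = g b := hab
        apply f.injective
        rw [Copy.coe_toHom, hg a, hg b, h3]
    refine ((G'.comap e).minDegree_le_degree x).trans ?_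
    rw [deg_eq]
    have key : f '' (G'.comap e).neighborSet x ⊆ some '' S := by
      rintro _ ⟨a, ha, rfl⟩
      have h3 := f.toHom.map_adj ha
      rw [Copy.coe_toHom, hx] at h3
      rcases hfa : f a with _ | y
      · rw [hfa] at h3; exact h3.elim
      · rw [hfa] at h3
        exact ⟨y, h3, rfl⟩
    have h2 := Set.ncard_le_ncard key (Set.toFinite _)
    have h4 : (f '' (G'.comap e).neighborSet x).ncard = ((G'.comap e).neighborSet x).ncard :=
      Set.ncard_image_of_injective _ f.injective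
    rw [Set.ncard_image_of_injective _ (Option.some_injective K), h4] at h2
    exact h2.trans hS
  unfold RamseySimple
  have hset : (2 * δ - 1 : ℕ) ∈ {d | ∃ (n : ℕ) (G : SimpleGraph (Fin n)), MinRamsey G B ∧
      G.minDegree = d} := ⟨n, G'.comap e, hMR, h1⟩
  have hs2 : s2 B = 2 * δ - 1 := by
    unfold s2
    apply le_antisymm
    · exact Nat.sInf_le hset
    · obtain ⟨n₂, G₂, h₂, h₃⟩ := Nat.sInf_mem ⟨_, hset⟩
      rw [← h₃]
      exact h01 n₂ G₂ h₂
  rw [hs2, hdelta]
  omega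

end Pool.Agent.SEP60.H60
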