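import Pool.Agent.Helper60_SEP.Bas
import Pool.Agent.Helper60_SEP.Env
import Pool.Agent.Helper60_SEP.Bsm
import Pool.Agent.Helper60_SEP.Upp
import Pool.Agent.Helper10_SEP.Loc
import Pool.Agent.Helper31_SEP.Mxb
import Pool.Agent.Helper31_SEP.Lef
import Pool.Agent.Helper29_SEP.Snd
import Pool.Agent.Helper67_SEP.Hyp
import Pool.Agent.Helper39_SEP.FRC
import Pool.Agent.Helper81_SEP.Ext
import Pool.Agent.Helper81_SEP.Kst
import Pool.Agent.Helper76_SEP.Cra
import Pool.Agent.Helper43_SEP.COL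
import Pool.Agent.Helper43_SEP.NEQ
import Pool.Agent.Helper69_SEP.Tcn
import Pool.Agent.Helper21_SEP.Kqq
import Pool.Agent.Helper21_SEP.Ddd

/-!
# MP_ff6f12_co, squad SEP: assembly (helper60)
-/

set_option autoImplicit false

open SimpleGraph

namespace Pool.Agent.SEP60.H60

open Pool.Agent.RS80 Pool.Agent.RS81

theorem envAll : EnvStmt :=
  env (H29.snd H67.hyp H31.lef) H31.mxb bas H39.frc (H81.ext_thm H10.loc)

theorem neqAll : NeqStmt := H43.neq envAll H76.cra H43.col

end Pool.Agent.SEP60.H60
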