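import Pool.Agent.Helper60_SEP.Stmts

/-!
# MP_ff6f12_co, squad SEP: module BAS (helper60)
-/

set_option autoImplicit false

open SimpleGraph

namespace Pool.Agent.SEP60.H60

open Pool.Agent.RS80 Pool.Agent.RS81 Pool.Agent.SEP60

variable {V : Type} {B : SimpleGraph V} (D : Dat B)

theorem r_not_nb (i : Fin D.n) : D.nb i ≠ D.r := by
  intro h
  have := (D.nbr (D.nb i)).2 ⟨i, rfl⟩
  rw [h] at this
  exact D.Q.loopless.irrefl _ this

theorem pt_s (x y : D.U) : D.pt x y D.s = D.ref x := by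
  unfold Dat.pt
  rw [if_pos rfl]

theorem pt_t (x y : D.U) : D.pt x y (D.t (D.χ x y)) = .inl y := by
  unfold Dat.pt
  rw [if_neg (D.hts _), if_pos rfl]

theorem pt_o (x y : D.U) (a : D.Y) (h1 : a ≠ D.s) (h2 : a ≠ D.t (D.χ x y)) :
    D.pt x y a = D.pnt x y a := by
  unfold Dat.pt
  rw [if_neg h1, if_neg h2]

/-- the three kinds of points -/
theorem pt_cases (x y : D.U) (a : D.Y) :
    (a = D.s ∧ D.pt x y a = D.ref x) ∨ (a = D.t (D.χ x y) ∧ D.pt x y a = .inl y) ∨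
      (a ≠ D.s ∧ a ≠ D.t (D.χ x y) ∧ D.pt x y a = D.pnt x y a) := by
  by_cases h1 : a = D.s
  · left; exact ⟨h1, by rw [h1, pt_s]⟩
  · by_cases h2 : a = D.t (D.χ x y)
    · right; left; exact ⟨h2, by rw [h2, pt_t]⟩
    · right; right; exact ⟨h1, h2, pt_o D x y a h1 h2⟩

theorem ptj (x y : D.U) : Function.Injective (D.pt x y) := by
  intro a b hab
  rcases pt_cases D x y a with ⟨h1, h2⟩ | ⟨h1, h2⟩ | ⟨h1, h1', h2⟩ <;>
    rcases pt_cases D x y b with ⟨h3, h4⟩ | ⟨h3, h4⟩ | ⟨h3, h3', h4⟩ <;>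
    rw [h2, h4] at hab
  · rw [h1, h3]
  · exact absurd hab (by simp)
  · exact absurd hab (by simp)
  · exact absurd hab (by simp)
  · rw [h1, h3]
  · exact absurd hab (by simp)
  · exact absurd hab (by simp)
  · exact absurd hab (by simp)
  · simpa using hab

theorem emr (x y : D.U) (e : D.E) : D.em x y e D.r = .inl x := by
  unfold Dat.em
  rw [if_pos rfl]

theorem emn (x y : D.U) (e : D.E) (i : Fin D.n) :
    D.em x y e (D.nb i) = D.pt x y (D.inc e i) := by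
  unfold Dat.em
  have h : ∃ j, D.nb j = D.nb i := ⟨i, rfl⟩
  rw [if_neg (r_not_nb D i), dif_pos h]
  rw [D.nbi h.choose_spec]

theorem emi (x y : D.U) (e : D.E) (z : D.T) (h1 : z ≠ D.r) (h2 : ∀ i, D.nb i ≠ z) :
    D.em x y e z = D.inn x y e z := by
  unfold Dat.em
  rw [if_neg h1, dif_neg (by rintro ⟨i, hi⟩; exact h2 i hi)]

/-- the three kinds of vertices of `Q` -/
theorem em_cases (x y : D.U) (e : D.E) (z : D.T) :
    (z = D.r ∧ D.em x y e z = .inl x) ∨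
      (∃ i, z = D.nb i ∧ D.em x y e z = D.pt x y (D.inc e i)) ∨
      (z ≠ D.r ∧ (∀ i, D.nb i ≠ z) ∧ D.em x y e z = D.inn x y e z) := by
  by_cases h1 : z = D.r
  · left; exact ⟨h1, by rw [h1, emr]⟩
  · by_cases h2 : ∃ i, D.nb i = z
    · obtain ⟨i, hi⟩ := h2
      right; left; exact ⟨i, hi.symm, by rw [← hi, emn]⟩
    · right; right
      have h3 : ∀ i, D.nb i ≠ z := fun i hi => h2 ⟨i, hi⟩
      exact ⟨h1, h3, emi D x y e z h1 h3⟩

theorem pt_ne_inn (x y : D.U) (a : D.Y) (x' y' : D.U) (e : D.E) (z : D.T) :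
    D.pt x y a ≠ D.inn x' y' e z := by
  rcases pt_cases D x y a with ⟨_, h⟩ | ⟨_, h⟩ | ⟨_, _, h⟩ <;> rw [h] <;> simp

theorem pt_ne_root (x y : D.U) (a : D.Y) (hxy : x ≠ y) : D.pt x y a ≠ .inl x := by
  rcases pt_cases D x y a with ⟨_, h⟩ | ⟨_, h⟩ | ⟨_, _, h⟩ <;> rw [h]
  · simp
  · simpa using hxy.symm
  · simp

theorem emj (x y : D.U) (e : D.E) (hxy : D.Γ.Adj x y) : Function.Injective (D.em x y e) := by
  intro z z' h
  have hne : x ≠ y := hxy.ne
  rcases em_cases D x y e z with ⟨h1, h2⟩ | ⟨i, h1, h2⟩ | ⟨h1, h1', h2⟩ <;>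
    rcases em_cases D x y e z' with ⟨h3, h4⟩ | ⟨j, h3, h4⟩ | ⟨h3, h3', h4⟩ <;>
    rw [h2, h4] at h
  · rw [h1, h3]
  · exact absurd h.symm (pt_ne_root D x y _ hne)
  · exact absurd h (by simp)
  · exact absurd h (pt_ne_root D x y _ hne)
  · rw [h1, h3, D.inci e (ptj D x y h)]
  · exact absurd h (pt_ne_inn D _ _ _ _ _ _ _)
  · exact absurd h (by simp)
  · exact absurd h.symm (pt_ne_inn D _ _ _ _ _ _ _)
  · simpa using h

theorem adj (a b : D.Vt) : D.F.Adj a b ↔ (∃ x y, D.G.Adj x y ∧ a = .inl x ∧ b = .inl y) ∨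
    ∃ x y e, D.Γ.Adj x y ∧ ∃ z z', D.Q.Adj z z' ∧ a = D.em x y e z ∧ b = D.em x y e z' := by
  unfold Dat.F
  rw [fromRel_adj]
  constructor
  · rintro ⟨_, (h | h) | (h | h)⟩
    · exact Or.inl h
    · exact Or.inr h
    · obtain ⟨x, y, h1, h2, h3⟩ := h
      exact Or.inl ⟨y, x, h1.symm, h3, h2⟩
    · obtain ⟨x, y, e, h0, z, z', h1, h2, h3⟩ := h
      exact Or.inr ⟨x, y, e, h0, z', z, h1.symm, h3, h2⟩
  · rintro (h | h)
    · refine ⟨?_, Or.inl (Or.inl h)⟩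
      obtain ⟨x, y, h1, h2, h3⟩ := h
      rw [h2, h3]
      intro h4
      exact h1.ne (Sum.inl_injective h4)
    · refine ⟨?_, Or.inl (Or.inr h)⟩
      obtain ⟨x, y, e, h0, z, z', h1, h2, h3⟩ := h
      rw [h2, h3]
      intro h4
      exact h1.ne (emj D x y e h0 h4)

/-- the sides -/
noncomputable def kap (D : Dat B) : D.Vt → Bool := fun a => match a with
  | .inl x => D.κ x
  | .inr (.inl x) => !D.κ x
  | .inr (.inr (.inl p)) => !D.κ p.1
  | .inr (.inr (.inr p)) => Bool.xor (D.κ p.1) (Bool.xor (D.κQ D.r) (D.κQ p.2.2.2))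

theorem kap_pt (x y : D.U) (a : D.Y) (hxy : D.Γ.Adj x y) : kap D (D.pt x y a) = !D.κ x := by
  rcases pt_cases D x y a with ⟨_, h⟩ | ⟨_, h⟩ | ⟨_, _, h⟩ <;> rw [h]
  · rfl
  · show D.κ y = !D.κ x
    have := D.hκ x y (D.hΓ hxy)
    cases h1 : D.κ x <;> cases h2 : D.κ y <;> simp_all
  · rfl

theorem kap_em (x y : D.U) (e : D.E) (z : D.T) (hxy : D.Γ.Adj x y) :
    kap D (D.em x y e z) = Bool.xor (D.κ x) (Bool.xor (D.κQ D.r) (D.κQ z)) := by
  rcases em_cases D x y e z with ⟨h1, h2⟩ | ⟨i, h1, h2⟩ | ⟨h1, h1', h2⟩ <;> rw [h2]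
  · rw [h1]
    show D.κ x = _
    simp
  · rw [kap_pt D x y _ hxy, h1]
    have := D.hQ D.r (D.nb i) ((D.nbr _).2 ⟨i, rfl⟩)
    cases h3 : D.κQ D.r <;> cases h4 : D.κQ (D.nb i) <;> simp_all
  · rfl

theorem kap_proper (a b : D.Vt) (h : D.F.Adj a b) : kap D a ≠ kap D b := by
  rw [adj] at h
  rcases h with ⟨x, y, h1, h2, h3⟩ | ⟨x, y, e, h0, z, z', h1, h2, h3⟩
  · rw [h2, h3]
    exact D.hκ x y h1
  · rw [h2, h3, kap_em D x y e z h0, kap_em D x y e z' h0]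
    have := D.hQ z z' h1
    intro h4
    apply this
    cases h5 : D.κ x <;> cases h6 : D.κQ D.r <;> simp_all

/-- `Q`-neighbours of a point are inner vertices or the root -/
theorem q_nb (i : Fin D.n) (z : D.T) (h : D.Q.Adj (D.nb i) z) :
    z = D.r ∨ (z ≠ D.r ∧ ∀ j, D.nb j ≠ z) := by
  by_cases h1 : z = D.r
  · exact Or.inl h1
  · refine Or.inr ⟨h1, fun j hj => ?_⟩
    have h2 := D.hQ _ _ h
    have h3 := D.hQ D.r (D.nb i) ((D.nbr _).2 ⟨i, rfl⟩)
    have h4 := D.hQ D.r (D.nb j) ((D.nbr _).2 ⟨j, rfl⟩)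
    rw [hj] at h4
    cases h5 : D.κQ D.r <;> cases h6 : D.κQ (D.nb i) <;> cases h7 : D.κQ z <;> simp_all

/-- `F`-neighbours of a point, through a copy of `Q` -/
theorem ecc (x y : D.U) : D.F.Adj (.inl x) (.inl y) ↔ D.G.Adj x y := by
  rw [adj]
  constructor
  · rintro (⟨x', y', h1, h2, h3⟩ | ⟨x', y', e, h0, z, z', h1, h2, h3⟩)
    · rw [Sum.inl_injective h2, Sum.inl_injective h3]
      exact h1
    · rcases em_cases D x' y' e z with ⟨g1, g2⟩ | ⟨i, g1, g2⟩ | ⟨g1, g1', g2⟩ <;>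
        rcases em_cases D x' y' e z' with ⟨g3, g4⟩ | ⟨j, g3, g4⟩ | ⟨g3, g3', g4⟩ <;>
        rw [g2] at h2 <;> rw [g4] at h3
      · rw [g1, g3] at h1; exact absurd h1 (D.Q.loopless.irrefl _)
      · rcases pt_cases D x' y' (D.inc e j) with ⟨_, k⟩ | ⟨_, k⟩ | ⟨_, _, k⟩ <;> rw [k] at h3
        · exact absurd h3 (by simp)
        · rw [Sum.inl_injective h2, Sum.inl_injective h3]
          exact D.hΓ h0
        · exact absurd h3 (by simp)
      · exact absurd h3 (by simp)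
      · rcases pt_cases D x' y' (D.inc e i) with ⟨_, k⟩ | ⟨_, k⟩ | ⟨_, _, k⟩ <;> rw [k] at h2
        · exact absurd h2 (by simp)
        · rw [Sum.inl_injective h2, Sum.inl_injective h3]
          exact (D.hΓ h0).symm
        · exact absurd h2 (by simp)
      · rw [g1] at h1
        rcases q_nb D i z' h1 with k | ⟨_, k⟩
        · rw [g3] at k; exact absurd k (r_not_nb D j)
        · exact absurd g3.symm (k j)
      · exact absurd h3 (by simp)
      · exact absurd h2 (by simp)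
      · exact absurd h2 (by simp)
      · exact absurd h2 (by simp)
  · intro h
    exact Or.inl ⟨x, y, h, rfl, rfl⟩

theorem nref (x : D.U) (b : D.Vt) (h : D.F.Adj (D.ref x) b) : b = .inl x ∨
    ∃ y e z i, D.Γ.Adj x y ∧ b = D.inn x y e z ∧ D.inc e i = D.s := by
  rw [adj] at h
  rcases h with ⟨x', y', h1, h2, h3⟩ | ⟨x', y', e, h0, z, z', h1, h2, h3⟩
  · exact absurd h2 (by simp)
  · rcases em_cases D x' y' e z with ⟨g1, g2⟩ | ⟨i, g1, g2⟩ | ⟨g1, g1', g2⟩ <;> rw [g2] at h2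
    · exact absurd h2 (by simp)
    · rcases pt_cases D x' y' (D.inc e i) with ⟨k1, k⟩ | ⟨_, k⟩ | ⟨_, _, k⟩ <;> rw [k] at h2
      · have hx : x = x' := by simpa using h2
        subst hx
        rw [g1] at h1
        rcases q_nb D i z' h1 with k2 | ⟨k2, k3⟩
        · left
          rw [h3, k2, emr]
        · right
          exact ⟨y', e, z', i, h0, by rw [h3, emi D _ _ _ _ k2 k3], k1⟩
      · exact absurd h2 (by simp)
      · exact absurd h2 (by simp)
    · exact absurd h2 (by simp)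

theorem npnt (x y : D.U) (a : D.Y) (b : D.Vt) (h : D.F.Adj (D.pnt x y a) b) : b = .inl x ∨
    ∃ e z i, D.Γ.Adj x y ∧ b = D.inn x y e z ∧ D.inc e i = a := by
  rw [adj] at h
  rcases h with ⟨x', y', h1, h2, h3⟩ | ⟨x', y', e, h0, z, z', h1, h2, h3⟩
  · exact absurd h2 (by simp)
  · rcases em_cases D x' y' e z with ⟨g1, g2⟩ | ⟨i, g1, g2⟩ | ⟨g1, g1', g2⟩ <;> rw [g2] at h2
    · exact absurd h2 (by simp)
    · rcases pt_cases D x' y' (D.inc e i) with ⟨k1, k⟩ | ⟨_, k⟩ | ⟨_, _, k⟩ <;> rw [k] at h2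
      · exact absurd h2 (by simp)
      · exact absurd h2 (by simp)
      · have hx : x = x' ∧ y = y' ∧ a = D.inc e i := by simpa using h2
        obtain ⟨hx, hy, ha⟩ := hx
        subst hx
        subst hy
        rw [g1] at h1
        rcases q_nb D i z' h1 with k2 | ⟨k2, k3⟩
        · left
          rw [h3, k2, emr]
        · right
          exact ⟨e, z', i, h0, by rw [h3, emi D _ _ _ _ k2 k3], ha.symm⟩
    · exact absurd h2 (by simp)

theorem ninn (x y : D.U) (e : D.E) (z : D.T) (b : D.Vt) (h : D.F.Adj (D.inn x y e z) b) :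
    D.Γ.Adj x y ∧ z ≠ D.r ∧ (∀ i, D.nb i ≠ z) ∧
      ∃ z', z' ≠ D.r ∧ D.Q.Adj z z' ∧ b = D.em x y e z' := by
  rw [adj] at h
  rcases h with ⟨x', y', h1, h2, h3⟩ | ⟨x', y', e', h0, w, z', h1, h2, h3⟩
  · exact absurd h2 (by simp)
  · rcases em_cases D x' y' e' w with ⟨g1, g2⟩ | ⟨i, g1, g2⟩ | ⟨g1, g1', g2⟩ <;> rw [g2] at h2
    · exact absurd h2 (by simp)
    · exact absurd h2.symm (pt_ne_inn D _ _ _ _ _ _ _)
    · have hx : x = x' ∧ y = y' ∧ e = e' ∧ z = w := by simpa using h2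
      obtain ⟨rfl, rfl, rfl, rfl⟩ := hx
      refine ⟨h0, g1, g1', z', ?_, h1, h3⟩
      intro hz
      rw [hz] at h1
      obtain ⟨i, hi⟩ := (D.nbr z).1 h1.symm
      exact g1' i hi

theorem ncor (x : D.U) (w : D.U ⊕ (D.U × D.U × D.Y) ⊕ (D.U × D.U × D.E × D.T))
    (h : D.F.Adj (.inl x) (.inr w)) : ∃ y, D.Γ.Adj x y := by
  rw [adj] at h
  rcases h with ⟨x', y', h1, h2, h3⟩ | ⟨x', y', e, h0, z, z', h1, h2, h3⟩
  · exact absurd h3 (by simp)
  · rcases em_cases D x' y' e z with ⟨g1, g2⟩ | ⟨i, g1, g2⟩ | ⟨g1, g1', g2⟩ <;> rw [g2] at h2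
    · rw [Sum.inl_injective h2]
      exact ⟨y', h0⟩
    · rcases pt_cases D x' y' (D.inc e i) with ⟨k1, k⟩ | ⟨_, k⟩ | ⟨_, _, k⟩ <;> rw [k] at h2
      · exact absurd h2 (by simp)
      · rw [Sum.inl_injective h2]
        exact ⟨x', h0.symm⟩
      · exact absurd h2 (by simp)
    · exact absurd h2 (by simp)

theorem ind (x y : D.U) (e : D.E) (z z' : D.T) (h0 : D.Γ.Adj x y) :
    D.F.Adj (D.em x y e z) (D.em x y e z') ↔ D.Q.Adj z z' := by
  constructor
  · intro h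
    have inner : ∀ w w', w ≠ D.r → (∀ i, D.nb i ≠ w) →
        D.F.Adj (D.em x y e w) (D.em x y e w') → D.Q.Adj w w' := by
      intro w w' h1 h2 h3
      rw [emi D x y e w h1 h2] at h3
      obtain ⟨_, _, _, w'', _, h4, h5⟩ := ninn D x y e w _ h3
      rw [emj D x y e h0 h5]
      exact h4
    rcases em_cases D x y e z with ⟨g1, g2⟩ | ⟨i, g1, g2⟩ | ⟨g1, g1', g2⟩
    · rcases em_cases D x y e z' with ⟨g3, g4⟩ | ⟨j, g3, g4⟩ | ⟨g3, g3', g4⟩
      · rw [g1, g3] at h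
        exact absurd h (D.F.loopless.irrefl _)
      · rw [g1, g3]
        exact (D.nbr _).2 ⟨j, rfl⟩
      · exact (inner z' z g3 g3' h.symm).symm
    · rcases em_cases D x y e z' with ⟨g3, g4⟩ | ⟨j, g3, g4⟩ | ⟨g3, g3', g4⟩
      · rw [g1, g3]
        exact ((D.nbr _).2 ⟨i, rfl⟩).symm
      · have h1 := kap_proper D _ _ h
        rw [g2, g4, kap_pt D x y _ h0, kap_pt D x y _ h0] at h1
        exact absurd rfl h1
      · exact (inner z' z g3 g3' h.symm).symm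
    · exact inner z z' g1 g1' h
  · intro h
    rw [adj]
    exact Or.inr ⟨x, y, e, h0, z, z', h, rfl, rfl⟩

/-- BAS. -/
theorem bas : BasStmt := fun _ _ D =>
  { emr := emr D
    emn := emn D
    emi := emi D
    emj := emj D
    ptj := ptj D
    adj := adj D
    ecc := ecc D
    ind := ind D
    side := ⟨kap D, kap_proper D, fun _ => rfl⟩
    nref := nref D
    npnt := npnt D
    ninn := ninn D
    ncor := ncor D }

end Pool.Agent.SEP60.H60
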