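import Pool.Agent.Helper80_RS2.Stmts

/-!
# MP_ff6f12_co, squad SEP: separation of `B` from `B` with pendant edges. Definitions.
-/

set_option autoImplicit false

open SimpleGraph

namespace Pool.Agent.SEP60

open Pool.Agent.RS80 Pool.Agent.RS81

/-- No cut of two vertices on opposite sides: for every proper colouring of `B` with two colours
and all vertices `x`, `y` of different colours the graph `B - x - y` is connected. -/
def NoOpp {V : Type} (B : SimpleGraph V) : Prop :=
  ∀ κ : V → Bool, (∀ x y, B.Adj x y → κ x ≠ κ y) → ∀ x y, κ x ≠ κ y →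
    (B.induce {x, y}ᶜ).Preconnected

/-! ### Hypergraphs, given by the families `inc : E → Fin n → Y` -/

/-- Sparse: at most `L` hyperedges (at least one) span more than `n - 1` points each. -/
def Sparse {n : ℕ} {Y E : Type} (L : ℕ) (inc : E → Fin n → Y) : Prop :=
  ∀ D : Set E, D.Nonempty → D.ncard ≤ L →
    (n - 1) * D.ncard + 1 ≤ {y | ∃ e ∈ D, ∃ i, inc e i = y}.ncard

/-- Leafy: among at most `L` hyperedges (at least one) there is one with at most one point
which lies in `Z` or in another of these hyperedges. -/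
def Leafy {n : ℕ} {Y E : Type} (L : ℕ) (inc : E → Fin n → Y) (Z : Set Y) : Prop :=
  ∀ D : Set E, D.Nonempty → D.ncard ≤ L → ∃ e ∈ D, ∀ i j,
    (inc e i ∈ Z ∨ ∃ e' ∈ D, e' ≠ e ∧ ∃ l, inc e' l = inc e i) →
    (inc e j ∈ Z ∨ ∃ e' ∈ D, e' ≠ e ∧ ∃ l, inc e' l = inc e j) → i = j

/-- `τ` solves the constraint `P` at every hyperedge. -/
def Sol {n : ℕ} {Y E : Type} (P : Set (Fin n → Bool)) (inc : E → Fin n → Y) (τ : Y → Bool) :
    Prop :=
  ∀ e, (fun i => τ (inc e i)) ∈ P

/-- The colour patterns at the root `r` of the `B`-free colourings of `Q` (`true` = red). -/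
def pat {V T : Type} (B : SimpleGraph V) (Q : SimpleGraph T) (r : T) {n : ℕ} (nb : Fin n → T) :
    Set (Fin n → Bool) :=
  {p | ∃ R S, Good B Q R S ∧ ∀ i, (p i = true ↔ R.Adj r (nb i))}

/-! ### The environment -/

/-- The data of the environment: a core graph `G` with a signed subgraph `Γ`, a mixed gadget `Q`
with root `r`, and a hypergraph (the wire) with terminals `s`, `t true`, `t false`. -/
structure Dat {V : Type} (B : SimpleGraph V) : Type 1 where
  U : Type
  finU : Finite U
  G : SimpleGraph U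
  Γ : SimpleGraph U
  κ : U → Bool
  χ : U → U → Bool
  hκ : ∀ x y, G.Adj x y → κ x ≠ κ y
  hΓ : Γ ≤ G
  hχ : ∀ x y, χ x y = χ y x
  T : Type
  finT : Finite T
  Q : SimpleGraph T
  κQ : T → Bool
  r : T
  hQ : ∀ x y, Q.Adj x y → κQ x ≠ κQ y
  n : ℕ
  nb : Fin n → T
  nbi : Function.Injective nb
  nbr : ∀ z, Q.Adj r z ↔ ∃ i, nb i = z
  Y : Type
  finY : Finite Y
  E : Type
  finE : Finite E
  inc : E → Fin n → Y
  s : Y
  t : Bool → Y
  hts : ∀ β, t β ≠ s
  htt : t true ≠ t false
  inci : ∀ e, Function.Injective (inc e)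
  leafy : Leafy (Nat.card V) inc {s, t true, t false}
  sol : ∃ τ, Sol (pat B Q r nb) inc τ
  force : ∀ τ, Sol (pat B Q r nb) inc τ → ∀ β, (τ (t β) = τ s ↔ β = true)

namespace Dat

variable {V : Type} {B : SimpleGraph V} (D : Dat B)

/-- The vertices of the environment: core vertices; the reference vertices `ref x`; the inner
points `pnt x y a` of the wire of the pair `(x, y)`; the inner vertices `inn x y e z` of the copy
of `Q` at the hyperedge `e` of this wire. -/
abbrev Vt : Type := D.U ⊕ (D.U ⊕ (D.U × D.U × D.Y) ⊕ (D.U × D.U × D.E × D.T))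

/-- reference vertex -/
abbrev ref (x : D.U) : D.Vt := .inr (.inl x)

/-- inner point -/
abbrev pnt (x y : D.U) (a : D.Y) : D.Vt := .inr (.inr (.inl (x, y, a)))

/-- inner vertex -/
abbrev inn (x y : D.U) (e : D.E) (z : D.T) : D.Vt := .inr (.inr (.inr (x, y, e, z)))

open Classical in
/-- The vertex of the point `a` of the wire at `x` for the pair `(x, y)`: the terminal `s` is the
reference vertex of `x`, the terminal `t (χ x y)` is `y`. -/
noncomputable def pt (x y : D.U) (a : D.Y) : D.Vt :=
  if a = D.s then D.ref x else if a = D.t (D.χ x y) then .inl y else D.pnt x y a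

open Classical in
/-- The vertex of `z` in the copy of `Q` at the hyperedge `e` of the wire of `(x, y)`: the root is
`x`, its neighbours are the points of the hyperedge. -/
noncomputable def em (x y : D.U) (e : D.E) (z : D.T) : D.Vt :=
  if z = D.r then .inl x else
    if h : ∃ i, D.nb i = z then D.pt x y (D.inc e h.choose) else D.inn x y e z

/-- The environment. -/
noncomputable def F : SimpleGraph D.Vt :=
  SimpleGraph.fromRel fun a b =>
    (∃ x y, D.G.Adj x y ∧ a = .inl x ∧ b = .inl y) ∨
    (∃ x y e, D.Γ.Adj x y ∧ ∃ z z', D.Q.Adj z z' ∧ a = D.em x y e z ∧ b = D.em x y e z')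

end Dat

/-! ### The core -/

/-- The vertices of the core: the cell `k i`, the blue structures `d i j c v`, the hubs
`h i r`. -/
abbrev CU (V : Type) (M a : ℕ) : Type := V ⊕ (V × V × Fin M × V) ⊕ (V × Fin a)

/-- `k i` (and the hubs of `i`) are joined to `d i' j' c v`. -/
def KD {V : Type} (B : SimpleGraph V) (i i' j' v : V) : Prop :=
  B.Adj i' j' ∧ (i = i' ∨ i = j') ∧ v ≠ i' ∧ v ≠ j' ∧ B.Adj i v

/-- `d i j c v` is joined to `d i' j' c' v'`. -/
def DD {V : Type} {M : ℕ} (B : SimpleGraph V) (p q : V × V × Fin M × V) : Prop :=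
  p.1 = q.1 ∧ p.2.1 = q.2.1 ∧ p.2.2.1 = q.2.2.1 ∧ B.Adj p.1 p.2.1 ∧
    p.2.2.2 ≠ p.1 ∧ p.2.2.2 ≠ p.2.1 ∧ q.2.2.2 ≠ p.1 ∧ q.2.2.2 ≠ p.2.1 ∧ B.Adj p.2.2.2 q.2.2.2

/-- The red core: the cell and the hubs. -/
def coreR {V : Type} (B : SimpleGraph V) (M a : ℕ) : SimpleGraph (CU V M a) where
  Adj x y := match x, y with
    | .inl i, .inl j => B.Adj i j
    | .inr (.inr q), .inr (.inl p) => KD B q.1 p.1 p.2.1 p.2.2.2
    | .inr (.inl p), .inr (.inr q) => KD B q.1 p.1 p.2.1 p.2.2.2
    | _, _ => False
  symm := ⟨by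
    rintro (i | p | q) (j | p' | q') h <;>
      first
        | exact B.symm.symm _ _ h
        | exact h⟩
  loopless := ⟨by
    rintro (i | p | q) h
    · exact B.loopless.irrefl i h
    · exact h
    · exact h⟩

/-- The blue core. -/
def coreS {V : Type} (B : SimpleGraph V) (M a : ℕ) : SimpleGraph (CU V M a) where
  Adj x y := match x, y with
    | .inl i, .inr (.inl p) => KD B i p.1 p.2.1 p.2.2.2
    | .inr (.inl p), .inl i => KD B i p.1 p.2.1 p.2.2.2
    | .inr (.inl p), .inr (.inl q) => DD B p q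
    | _, _ => False
  symm := ⟨by
    rintro (i | p | q) (j | p' | q') h
    · exact h
    · exact h
    · exact h
    · exact h
    · obtain ⟨h1, h2, h3, h4, h5, h6, h7, h8, h9⟩ := h
      exact ⟨h1.symm, h2.symm, h3.symm, h1 ▸ h2 ▸ h4, h1 ▸ h7, h2 ▸ h8, h1 ▸ h5, h2 ▸ h6,
        h9.symm⟩
    · exact h
    · exact h
    · exact h
    · exact h⟩
  loopless := ⟨by
    rintro (i | p | q) h
    · exact h
    · exact B.loopless.irrefl _ h.2.2.2.2.2.2.2.2
    · exact h⟩

/-- The part of the core with forced colours: everything except the edges at the cell. -/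
def coreΓ {V : Type} (B : SimpleGraph V) (M a : ℕ) : SimpleGraph (CU V M a) where
  Adj x y := match x, y with
    | .inl _, _ => False
    | _, .inl _ => False
    | .inr x, .inr y => (coreR B M a ⊔ coreS B M a).Adj (.inr x) (.inr y)
  symm := ⟨by
    rintro (i | x) (j | y) h
    · exact h
    · exact h
    · exact h
    · exact (coreR B M a ⊔ coreS B M a).symm.symm _ _ h⟩
  loopless := ⟨by
    rintro (i | x) h
    · exact h
    · exact (coreR B M a ⊔ coreS B M a).loopless.irrefl _ h⟩

/-- The signs: red for the edges at the hubs. -/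
def coreχ {V : Type} {M a : ℕ} (x y : CU V M a) : Bool :=
  match x, y with
    | .inr (.inr _), _ => true
    | _, .inr (.inr _) => true
    | _, _ => false

/-- The sides of the core. -/
def coreκ {V : Type} {M a : ℕ} (κ : V → Bool) (x : CU V M a) : Bool :=
  match x with
    | .inl i => κ i
    | .inr (.inl p) => κ p.2.2.2
    | .inr (.inr q) => κ q.1

end Pool.Agent.SEP60
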