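import Pool.Agent.Helper60_SEP.Stmts2

/-!
# MP_ff6f12_co, squad SEP: isomorphism invariance (helper60)
-/

set_option autoImplicit false

open SimpleGraph

namespace Pool.Agent.SEP60.H60

open Pool.Agent.RS80 Pool.Agent.RS81

theorem arrows_congr {V W K : Type} {H : SimpleGraph V} {H' : SimpleGraph W} (e : H ≃g H')
    (G : SimpleGraph K) : Arrows G H ↔ Arrows G H' := by
  have h1 : ∀ R : SimpleGraph K, H ⊑ R ↔ H' ⊑ R := by
    intro R
    constructor
    · exact fun h => IsContained.trans ⟨e.symm.toEmbedding.toCopy⟩ h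
    · exact fun h => IsContained.trans ⟨e.toEmbedding.toCopy⟩ h
  unfold Arrows
  constructor
  · intro h R hR
    rw [← h1, ← h1]
    exact h R hR
  · intro h R hR
    rw [h1, h1]
    exact h R hR

theorem simple_iso {V W : Type} [Finite V] [Finite W] {H : SimpleGraph V} {H' : SimpleGraph W}
    (e : H ≃g H') (h : RamseySimple H) : RamseySimple H' := by
  classical
  unfold RamseySimple at h ⊢
  have h1 : s2 H' = s2 H := by
    unfold s2
    congr 1
    ext d
    constructor
    · rintro ⟨n, G, ⟨hG1, hG2⟩, hd⟩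
      exact ⟨n, G, ⟨(arrows_congr e G).2 hG1, fun G' h' h'' =>
        hG2 G' h' ((arrows_congr e G'.coe).1 h'')⟩, hd⟩
    · rintro ⟨n, G, ⟨hG1, hG2⟩, hd⟩
      exact ⟨n, G, ⟨(arrows_congr e G).1 hG1, fun G' h' h'' =>
        hG2 G' h' ((arrows_congr e G'.coe).2 h'')⟩, hd⟩
  let := Fintype.ofFinite V
  let := Fintype.ofFinite W
  have h2 : H.minDegree = H'.minDegree := e.minDegree_eq
  rw [h1, h]
  congr 3

/-- `B` and `pendL B 0` are isomorphic. -/
def pendLZero {V : Type} (B : SimpleGraph V) (ℓ : V → ℕ) (h : ∀ v, ℓ v = 0) :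
    B ≃g pendL B ℓ where
  toFun := Sum.inl
  invFun := fun x => match x with
    | .inl v => v
    | .inr z => z.1
  left_inv := fun _ => rfl
  right_inv := by
    rintro (v | ⟨v, i⟩)
    · rfl
    · exact absurd (lt_of_lt_of_eq i.2 (h v)) (Nat.not_lt_zero _)
  map_rel_iff' := Iff.rfl

end Pool.Agent.SEP60.H60
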