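import Pool.Agent.Helper60_SEP.Main
import Pool.Agent.Helper60_SEP.Iso
import Pool.Agent.Helper11_SEP.Kan

/-!
# MP_ff6f12_co, squad SEP: final assembly (helper60)
-/

set_option autoImplicit false

open SimpleGraph

namespace Pool.Agent.SEP60.H60

open Pool.Agent.RS80 Pool.Agent.RS81

theorem bsmAll : BsmStmt :=
  bsm envAll (qst H11.kan H21.kqq H21.ddd) upp

/-- All decorations. -/
theorem allAll (V : Type) [Finite V] (B : SimpleGraph V) (ℓ : V → ℕ) (hB : TwoConn B)
    (hc : B.Colorable 2) (hN : NoOpp B) : RamseySimple (pendL B ℓ) := by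
  by_cases h : ∃ v, 0 < ℓ v
  · exact topAll V B ℓ hB hc hN h
  · exact simple_iso (pendLZero B ℓ fun v => by
      by_contra h1
      exact h ⟨v, Nat.pos_of_ne_zero h1⟩) (bsmAll V B hB hc hN)

end Pool.Agent.SEP60.H60
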