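import Pool.Agent.Helper60_SEP.All
import Pool.Agent.Helper60_RS2.Stw
import Pool.Agent.Helper80_RS2.Asm
import Pool.Agent.Helper80_RS2.Cel
import Pool.Agent.Helper80_RS2.Lft
import Pool.Agent.Helper80_RS2.Glue
import Pool.Agent.Helper83_RS2.Gon
import Pool.Agent.Helper39_RS2.Mix
import Pool.Agent.Helper39_RS2.Cnv
import Pool.Agent.Helper25_RS2.Hvy
import Pool.Agent.Helper25_RS2.Ffm
import Pool.Agent.Helper25_RS2.Red
import Pool.Agent.Helper33_RS2.Ske
import Pool.Agent.Helper21_RS2.Bmx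

/-!
# MP_ff6f12_co, squad SEP: the pendant versions (helper60)
-/

set_option autoImplicit false

open SimpleGraph

namespace Pool.Agent.SEP60.H60

open Pool.Agent.RS80 Pool.Agent.RS81

theorem mainAll : MainStmt := by
  have ktt : Pool.Agent.RS81.KttStmt := Pool.Agent.RS81.H60.ktt
  have gon : Pool.Agent.RS81.GonStmt := Pool.Agent.RS81.H83.gon ktt
  have mix : Pool.Agent.RS81.MixStmt := Pool.Agent.RS81.H39.mix ktt gon
  have hvy : Pool.Agent.RS81.HvyStmt := Pool.Agent.RS81.H25.hvy mix Pool.Agent.RS81.glu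
  have ffm : Pool.Agent.RS81.FfmStmt := Pool.Agent.RS81.H25.ffm hvy Pool.Agent.RS81.glu
  have bmx : Pool.Agent.RS81.BmxStmt := Pool.Agent.RS81.H21.bmx ktt
  have lft : Pool.Agent.RS81.LftStmt := Pool.Agent.RS81.lft hvy bmx
  have red : Pool.Agent.RS81.RedStmt := Pool.Agent.RS81.H25.red ffm lft Pool.Agent.RS81.glu
  have cel : Pool.Agent.RS81.CelStmt := Pool.Agent.RS81.cel red Pool.Agent.RS81.H33.ske
  exact Pool.Agent.RS81.main (Pool.Agent.RS81.asm cel) Pool.Agent.RS81.H60.stw Pool.Agent.RS81.H39.cnv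

theorem topAll : TopStmt := top mainAll neqAll

end Pool.Agent.SEP60.H60
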