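import Pool.Agent.Helper60_SEP.Defs

/-!
# MP_ff6f12_co, squad SEP: statements of the modules
-/

set_option autoImplicit false

open SimpleGraph

namespace Pool.Agent.SEP60

open Pool.Agent.RS80 Pool.Agent.RS81

/-- HYP: sparse hypergraphs which are not 2-colourable. -/
def HypStmt : Prop :=
  ∀ n L : ℕ, 2 ≤ n → ∃ (Y E : Type) (_ : Finite Y) (_ : Finite E) (inc : E → Fin n → Y),
    Sparse L inc ∧ ∀ χ : Y → Bool, ∃ e c, ∀ i, χ (inc e i) = c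

/-- LEF: sparse hypergraphs have injective hyperedges and are leafy. -/
def LefStmt : Prop :=
  ∀ (n L : ℕ) (Y E : Type) [Finite Y] [Finite E] (inc : E → Fin n → Y), 2 ≤ n → 1 ≤ L →
    Sparse L inc → (∀ e, Function.Injective (inc e)) ∧ ∀ x, Leafy L inc {x}

/-- SND [Hyp, Lef]: the wire. -/
def SndStmt : Prop :=
  ∀ (n L : ℕ) (P : Set (Fin n → Bool)), 2 ≤ n → P.Nonempty →
    (∀ p ∈ P, (fun i => !p i) ∈ P) → (∀ c : Bool, (fun _ => c) ∉ P) →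
    ∃ (Y E : Type) (_ : Finite Y) (_ : Finite E) (inc : E → Fin n → Y) (s : Y) (t : Bool → Y),
      (∀ β, t β ≠ s) ∧ t true ≠ t false ∧ (∀ e, Function.Injective (inc e)) ∧
      Leafy L inc {s, t true, t false} ∧ (∃ τ, Sol P inc τ) ∧
      ∀ τ, Sol P inc τ → ∀ β, (τ (t β) = τ s ↔ β = true)

/-- MXB: a bipartite mixed gadget. -/
def MxbStmt : Prop :=
  ∀ (V : Type) [Finite V] (B : SimpleGraph V), TwoConn B → B.Colorable 2 →
    ∃ (T : Type) (_ : Finite T) (Q : SimpleGraph T) (κ : T → Bool) (r : T),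
      (∀ x y, Q.Adj x y → κ x ≠ κ y) ∧ InC B Q ∧
      ∀ R S, Good B Q R S → (∃ x, R.Adj r x) ∧ (∃ y, S.Adj r y)

/-- Basic facts on the environment. -/
structure Bas {V : Type} {B : SimpleGraph V} (D : Dat B) : Prop where
  emr : ∀ x y e, D.em x y e D.r = .inl x
  emn : ∀ x y e i, D.em x y e (D.nb i) = D.pt x y (D.inc e i)
  emi : ∀ x y e z, z ≠ D.r → (∀ i, D.nb i ≠ z) → D.em x y e z = D.inn x y e z
  emj : ∀ x y e, D.Γ.Adj x y → Function.Injective (D.em x y e)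
  ptj : ∀ x y, Function.Injective (D.pt x y)
  adj : ∀ a b, D.F.Adj a b ↔ (∃ x y, D.G.Adj x y ∧ a = .inl x ∧ b = .inl y) ∨
    ∃ x y e, D.Γ.Adj x y ∧ ∃ z z', D.Q.Adj z z' ∧ a = D.em x y e z ∧ b = D.em x y e z'
  ecc : ∀ x y, D.F.Adj (.inl x) (.inl y) ↔ D.G.Adj x y
  ind : ∀ x y e z z', D.Γ.Adj x y → (D.F.Adj (D.em x y e z) (D.em x y e z') ↔ D.Q.Adj z z')
  side : ∃ κ' : D.Vt → Bool, (∀ a b, D.F.Adj a b → κ' a ≠ κ' b) ∧ ∀ x, κ' (.inl x) = D.κ x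
  nref : ∀ x b, D.F.Adj (D.ref x) b → b = .inl x ∨
    ∃ y e z i, D.Γ.Adj x y ∧ b = D.inn x y e z ∧ D.inc e i = D.s
  npnt : ∀ x y a b, D.F.Adj (D.pnt x y a) b → b = .inl x ∨
    ∃ e z i, D.Γ.Adj x y ∧ b = D.inn x y e z ∧ D.inc e i = a
  ninn : ∀ x y e z b, D.F.Adj (D.inn x y e z) b → D.Γ.Adj x y ∧ z ≠ D.r ∧
    (∀ i, D.nb i ≠ z) ∧ ∃ z', z' ≠ D.r ∧ D.Q.Adj z z' ∧ b = D.em x y e z'
  ncor : ∀ x b, D.F.Adj (.inl x) (.inr b) → ∃ y, D.Γ.Adj x y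

/-- BAS. -/
def BasStmt : Prop := ∀ (V : Type) (B : SimpleGraph V) (D : Dat B), Bas D

/-- LOC: copies of `B` lie in the core or in one copy of `Q`. -/
def LocStmt : Prop :=
  ∀ (V : Type) [Finite V] (B : SimpleGraph V), TwoConn B → B.Colorable 2 → NoOpp B →
    ∀ D : Dat B, Bas D → ∀ f : Copy B D.F,
      (∀ v, ∃ x, f v = .inl x) ∨ ∃ x y e, D.Γ.Adj x y ∧ ∀ v, ∃ z, f v = D.em x y e z

/-- FRC: forced relations. -/
def FrcStmt : Prop :=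
  ∀ (V : Type) (B : SimpleGraph V) (D : Dat B), Bas D → ∀ R S, Good B D.F R S →
    ∀ x y z, D.Γ.Adj x y → D.Γ.Adj x z →
      ((R.Adj (.inl x) (.inl y) ↔ R.Adj (.inl x) (.inl z)) ↔ D.χ x y = D.χ x z)

/-- EXT [Loc]: extension of colourings of the core. -/
def ExtStmt : Prop :=
  ∀ (V : Type) [Finite V] (B : SimpleGraph V), TwoConn B → B.Colorable 2 → NoOpp B →
    ∀ D : Dat B, Bas D → ∀ R₀ S₀ : SimpleGraph D.U, R₀ ⊔ S₀ = D.G →
      (∀ x y, D.Γ.Adj x y → (R₀.Adj x y ↔ D.χ x y = true) ∧ (S₀.Adj x y ↔ D.χ x y = false)) →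
      ∃ R S : SimpleGraph D.Vt, R ⊔ S = D.F ∧
        (∀ x y, R.Adj (.inl x) (.inl y) ↔ R₀.Adj x y) ∧
        (∀ x y, S.Adj (.inl x) (.inl y) ↔ S₀.Adj x y) ∧
        (∀ (f : Copy B R) v, ∃ x, f v = .inl x) ∧ (∀ (f : Copy B S) v, ∃ x, f v = .inl x)

/-- ENV [Snd, Mxb, Bas, Frc, Ext]: the environment of a signed core. -/
def EnvStmt : Prop :=
  ∀ (V : Type) [Finite V] (B : SimpleGraph V), TwoConn B → B.Colorable 2 → NoOpp B →
    ∀ (U : Type) [Finite U] (G Γ : SimpleGraph U) (κ : U → Bool) (χ : U → U → Bool),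
      (∀ x y, G.Adj x y → κ x ≠ κ y) → Γ ≤ G → (∀ x y, χ x y = χ y x) →
      ∃ (W : Type) (_ : Finite W) (F : SimpleGraph (U ⊕ W)),
        (∀ x y, F.Adj (.inl x) (.inl y) ↔ G.Adj x y) ∧
        (∀ x w, F.Adj (.inl x) (.inr w) → ∃ y, Γ.Adj x y) ∧
        (∀ R S, Good B F R S → ∀ x y z, Γ.Adj x y → Γ.Adj x z →
          ((R.Adj (.inl x) (.inl y) ↔ R.Adj (.inl x) (.inl z)) ↔ χ x y = χ x z)) ∧
        ∀ R₀ S₀ : SimpleGraph U, R₀ ⊔ S₀ = G →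
          (∀ x y, Γ.Adj x y → (R₀.Adj x y ↔ χ x y = true) ∧ (S₀.Adj x y ↔ χ x y = false)) →
          ∃ R S : SimpleGraph (U ⊕ W), R ⊔ S = F ∧
            (∀ x y, R.Adj (.inl x) (.inl y) ↔ R₀.Adj x y) ∧
            (∀ x y, S.Adj (.inl x) (.inl y) ↔ S₀.Adj x y) ∧
            (∀ (f : Copy B R) v, ∃ x, f v = .inl x) ∧ (∀ (f : Copy B S) v, ∃ x, f v = .inl x)

/-- CRA: with forced signs on `coreΓ` the core is Ramsey. -/
def CraStmt : Prop :=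
  ∀ (V : Type) [Finite V] (B : SimpleGraph V), TwoConn B → B.Colorable 2 → NoOpp B →
    ∀ a N : ℕ, 1 ≤ a → B ⊑ completeBipartiteGraph (Fin (a + 1)) (Fin N) →
    ∀ (W : Type) (F : SimpleGraph (CU V (2 * N + 1) a ⊕ W)),
      (∀ x y, F.Adj (.inl x) (.inl y) ↔
        (coreR B (2 * N + 1) a ⊔ coreS B (2 * N + 1) a).Adj x y) →
      (∀ R S, Good B F R S → ∀ x y z, (coreΓ B (2 * N + 1) a).Adj x y →
        (coreΓ B (2 * N + 1) a).Adj x z →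
        ((R.Adj (.inl x) (.inl y) ↔ R.Adj (.inl x) (.inl z)) ↔ coreχ x y = coreχ x z)) →
      ¬ InC B F

/-- COL: the colouring of the core: all monochromatic copies of `B` are the cell. -/
def ColStmt : Prop :=
  ∀ (V : Type) [Finite V] (B : SimpleGraph V), TwoConn B → B.Colorable 2 → NoOpp B →
    ∀ M a : ℕ, (∀ N, B.Free (completeBipartiteGraph (Fin a) (Fin N))) →
      (∀ (f : Copy B (coreR B M a)) v, ∃ i, f v = .inl i) ∧ B.Free (coreS B M a)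

/-- NEQ [Env, Cra, Col]: separation. -/
def NeqStmt : Prop :=
  ∀ (V : Type) [Finite V] (B : SimpleGraph V) (ℓ : V → ℕ), TwoConn B → B.Colorable 2 →
    NoOpp B → (∃ v, 0 < ℓ v) → ¬ RamseyEquiv B (pendL B ℓ)

/-- 3-connected graphs. -/
def ThreeConn {V : Type} (B : SimpleGraph V) : Prop :=
  4 ≤ Nat.card V ∧ ∀ x y : V, (B.induce {x, y}ᶜ).Connected

/-- TCN: 3-connected graphs are 2-connected and have no opposite cuts. -/
def TcnStmt : Prop :=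
  ∀ (V : Type) [Finite V] (B : SimpleGraph V), ThreeConn B → TwoConn B ∧ NoOpp B

/-- KST: the complete bipartite graphs. -/
def KstStmt : Prop :=
  ∀ s t : ℕ, 2 ≤ s → 2 ≤ t → TwoConn (completeBipartiteGraph (Fin s) (Fin t)) ∧
    (completeBipartiteGraph (Fin s) (Fin t)).Colorable 2 ∧
    NoOpp (completeBipartiteGraph (Fin s) (Fin t))

/-- The theorem. -/
def TopStmt : Prop :=
  ∀ (V : Type) [Finite V] (B : SimpleGraph V) (ℓ : V → ℕ), TwoConn B → B.Colorable 2 →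
    NoOpp B → (∃ v, 0 < ℓ v) → RamseySimple (pendL B ℓ)

theorem top (h : MainStmt) (hn : NeqStmt) : TopStmt :=
  fun V _ B ℓ hB hc ho hl => (h V B ℓ hB hc hl).2 (hn V B ℓ hB hc ho hl)

end Pool.Agent.SEP60
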