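import Pool.Agent.Helper60_SEP.Stmts

/-!
# MP_ff6f12_co, squad SEP, second part: `B` itself is 2-Ramsey-simple. Statements of the modules
-/

set_option autoImplicit false

open SimpleGraph

namespace Pool.Agent.SEP60

open Pool.Agent.RS80 Pool.Agent.RS81

/-- A `B`-free connected bipartite graph with a set of `2 δ - 1` vertices of one side all of whose
`δ`-subsets are completing. -/
def Qst {V : Type} (B : SimpleGraph V) (δ : ℕ) : Prop :=
  ∃ (K : Type) (_ : Finite K) (R : SimpleGraph K) (κ : K → Bool) (S : Set K),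
    R.Connected ∧ B.Free R ∧ (∀ x y, R.Adj x y → κ x ≠ κ y) ∧ (∀ s ∈ S, κ s = true) ∧
    S.ncard = 2 * δ - 1 ∧ ∀ T ⊆ S, T.ncard = δ → B ⊑ cone R T

/-- KAN: a vertex of degree `δ` in the smaller side. -/
def KanStmt : Prop :=
  ∀ (V : Type) [Finite V] (B : SimpleGraph V) (κ : V → Bool) (u : V) (δ : ℕ), TwoConn B →
    (∀ x y, B.Adj x y → κ x ≠ κ y) → (B.neighborSet u).ncard = δ →
    {v | κ v = κ u}.ncard ≤ {v | κ v ≠ κ u}.ncard → Qst B δ

/-- KQQ: a vertex of degree `δ` in a larger side with at least `2 δ` vertices. -/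
def KqqStmt : Prop :=
  ∀ (V : Type) [Finite V] (B : SimpleGraph V) (κ : V → Bool) (u : V) (δ : ℕ), TwoConn B →
    (∀ x y, B.Adj x y → κ x ≠ κ y) → (B.neighborSet u).ncard = δ →
    {v | κ v ≠ κ u}.ncard < {v | κ v = κ u}.ncard → 2 * δ ≤ {v | κ v = κ u}.ncard → Qst B δ

/-- DDD: the remaining case. -/
def DddStmt : Prop :=
  ∀ (V : Type) [Finite V] (B : SimpleGraph V) (κ : V → Bool) (u : V) (δ : ℕ), TwoConn B →
    (∀ x y, B.Adj x y → κ x ≠ κ y) → (∀ v, δ ≤ (B.neighborSet v).ncard) →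
    (B.neighborSet u).ncard = δ → (∀ v, κ v ≠ κ u → δ + 1 ≤ (B.neighborSet v).ncard) →
    {v | κ v ≠ κ u}.ncard < {v | κ v = κ u}.ncard →
    {v | κ v = κ u}.ncard ≤ 2 * δ - 1 → Qst B δ

/-- QST [Kan, Kqq, Ddd]. -/
def QstStmt : Prop :=
  ∀ (V : Type) [Finite V] (B : SimpleGraph V) (δ : ℕ), TwoConn B → B.Colorable 2 →
    (∀ v, δ ≤ (B.neighborSet v).ncard) → (∃ u, (B.neighborSet u).ncard = δ) → Qst B δ

theorem qst (kan : KanStmt) (kqq : KqqStmt) (ddd : DddStmt) : QstStmt := by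
  rintro V _ B δ hB ⟨c⟩ hd ⟨u, hu⟩
  have hκ : ∀ x y, B.Adj x y → decide (c x = 0) ≠ decide (c y = 0) := by
    intro x y h e
    have h1 := c.valid h
    have h2 : ∀ a b : Fin 2, a ≠ b → decide (a = 0) ≠ decide (b = 0) := by decide
    exact h2 _ _ h1 e
  rcases le_or_gt {v | decide (c v = 0) = decide (c u = 0)}.ncard
    {v | decide (c v = 0) ≠ decide (c u = 0)}.ncard with h | h
  · exact kan V B (fun v => decide (c v = 0)) u δ hB hκ hu h
  rcases le_or_gt (2 * δ) {v | decide (c v = 0) = decide (c u = 0)}.ncard with h2 | h2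
  · exact kqq V B (fun v => decide (c v = 0)) u δ hB hκ hu h h2
  by_cases h3 : ∃ u', decide (c u' = 0) ≠ decide (c u = 0) ∧ (B.neighborSet u').ncard = δ
  · obtain ⟨u', h4, h5⟩ := h3
    refine kan V B (fun v => decide (c v = 0)) u' δ hB hκ h5 ?_
    have e1 : {v | decide (c v = 0) = decide (c u' = 0)} =
        {v | decide (c v = 0) ≠ decide (c u = 0)} := by
      ext v
      have h6 : ∀ a b d : Bool, b ≠ d → ((a = b) ↔ a ≠ d) := by decide
      exact h6 _ _ _ h4
    have e2 : {v | decide (c v = 0) ≠ decide (c u' = 0)} =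
        {v | decide (c v = 0) = decide (c u = 0)} := by
      ext v
      have h6 : ∀ a b d : Bool, b ≠ d → ((a ≠ b) ↔ a = d) := by decide
      exact h6 _ _ _ h4
    rw [e1, e2]
    exact h.le
  · refine ddd V B (fun v => decide (c v = 0)) u δ hB hκ hd hu ?_ h (by omega)
    intro v hv
    rcases (hd v).lt_or_eq with h6 | h6
    · exact h6
    · exact absurd ⟨v, hv, h6.symm⟩ h3

/-- UPP: a forbidden vertex of degree `2 δ - 1` gives simplicity (with the lower bound). -/
def UppStmt : Prop :=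
  ∀ (V : Type) [Finite V] (B : SimpleGraph V) (δ : ℕ), 1 ≤ δ →
    (∀ v, δ ≤ (B.neighborSet v).ncard) → (∃ u, (B.neighborSet u).ncard = δ) →
    ∀ (K : Type) [Finite K] (G : SimpleGraph K) (S : Set K), S.ncard ≤ 2 * δ - 1 →
      InC B G → ¬ InC B (cone G S) → RamseySimple B

/-- BSM [Env, Qst, Upp]: `B` is simple. -/
def BsmStmt : Prop :=
  ∀ (V : Type) [Finite V] (B : SimpleGraph V), TwoConn B → B.Colorable 2 → NoOpp B →
    RamseySimple B

end Pool.Agent.SEP60
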